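import Mathlib

/-!
# Sums of two elements of a multiplicative subgroup modulo a prime, by a second moment
-/

set_option autoImplicit false
open Finset

namespace Pool.Agent.Q249.CF

/-- For `c ≠ 0` the number of `h` with `h ^ m = 1`, `(c h - 1) ^ m = 1` is at most `M ^ 2 / q + √q`,
where `M` is the number of `h` with `h ^ m = 1`. -/
theorem sub_bound (q m : ℕ) [Fact q.Prime] (hm : 0 < m) (c : ZMod q) (hc : c ≠ 0)
    (H : Finset (ZMod q)) (hH : H = univ.filter (fun u : ZMod q => u ^ m = 1)) :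
    ((H.filter (fun h => c * h - 1 ∈ H)).card : ℝ) ≤ (H.card : ℝ) ^ 2 / q + Real.sqrt q := by
  classical
  have hq0 : (0 : ℝ) < q := by exact_mod_cast (Fact.out : q.Prime).pos
  have hmem : ∀ u : ZMod q, u ∈ H ↔ u ^ m = 1 := by
    intro u; rw [hH, mem_filter]; simp
  have h1H : (1 : ZMod q) ∈ H := by rw [hmem, one_pow]
  have hM0 : 0 < H.card := card_pos.2 ⟨1, h1H⟩
  have hMr : (0 : ℝ) < H.card := by exact_mod_cast hM0
  have hmul : ∀ u v : ZMod q, v ∈ H → (u * v ∈ H ↔ u ∈ H) := by
    intro u v hv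
    rw [hmem] at hv ⊢
    rw [hmem, mul_pow, hv, mul_one]
  set μ : ℝ := (H.card : ℝ) / q with hμ
  let f : ZMod q → ℝ := fun x => (if x ∈ H then 1 else 0) - μ
  have hfsum : ∑ x : ZMod q, f x = 0 := by
    simp only [f]
    rw [Finset.sum_sub_distrib, Finset.sum_ite_mem, Finset.univ_inter]
    simp only [Finset.sum_const, Finset.card_univ, ZMod.card, nsmul_eq_mul, mul_one]
    rw [hμ]
    field_simp
    ring
  have hfsq : ∑ x : ZMod q, f x ^ 2 ≤ H.card := by
    have e1 : ∀ x : ZMod q, f x ^ 2 = (if x ∈ H then 1 else 0) - μ * (f x + (if x ∈ H then 1 else 0)) := by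
      intro x
      simp only [f]
      split_ifs <;> ring
    rw [Finset.sum_congr rfl (fun x _ => e1 x), Finset.sum_sub_distrib, ← Finset.mul_sum,
      Finset.sum_add_distrib, hfsum, Finset.sum_ite_mem, Finset.univ_inter]
    simp only [Finset.sum_const, nsmul_eq_mul, mul_one, zero_add]
    have : 0 ≤ μ * (H.card : ℝ) := by positivity
    linarith
  let F : ZMod q → ZMod q → ℝ := fun a b => ∑ h ∈ H, f (a * h - b)
  have htot : ∑ a : ZMod q, ∑ b : ZMod q, F a b ^ 2 ≤ q * (H.card : ℝ) ^ 2 := by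
    have e1 : ∀ a b : ZMod q, F a b ^ 2 = ∑ h ∈ H, ∑ h' ∈ H, f (a * h - b) * f (a * h' - b) := by
      intro a b
      rw [sq, Finset.sum_mul_sum]
    have e2 : ∑ a : ZMod q, ∑ b : ZMod q, F a b ^ 2 =
        ∑ h ∈ H, ∑ h' ∈ H, ∑ p : ZMod q × ZMod q, f (p.1 * h - p.2) * f (p.1 * h' - p.2) := by
      rw [← Fintype.sum_prod_type' (fun a b => F a b ^ 2)]
      rw [Finset.sum_congr rfl (fun p _ => e1 p.1 p.2)]
      rw [Finset.sum_comm]
      refine Finset.sum_congr rfl fun h _ => ?_
      rw [Finset.sum_comm]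
    rw [e2]
    have e3 : ∀ h ∈ H, ∀ h' ∈ H, ∑ p : ZMod q × ZMod q, f (p.1 * h - p.2) * f (p.1 * h' - p.2) ≤
        if h = h' then (q : ℝ) * H.card else 0 := by
      intro h _ h' _
      by_cases hh : h = h'
      · rw [if_pos hh, ← hh]
        rw [Fintype.sum_prod_type]
        have : ∀ a : ZMod q, ∑ b : ZMod q, f (a * h - b) * f (a * h - b) = ∑ x : ZMod q, f x ^ 2 := by
          intro a
          rw [← (Equiv.subLeft (a * h)).sum_comp (fun x => f x ^ 2)]
          refine Finset.sum_congr rfl fun b _ => ?_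
          simp only [Equiv.subLeft_apply]
          ring
        rw [Finset.sum_congr rfl (fun a _ => this a)]
        simp only [Finset.sum_const, Finset.card_univ, ZMod.card, nsmul_eq_mul]
        gcongr
      · rw [if_neg hh]
        have hne : h - h' ≠ 0 := sub_ne_zero.2 hh
        let g : ZMod q × ZMod q → ZMod q × ZMod q := fun p => (p.1 * h - p.2, p.1 * h' - p.2)
        have hg : Function.Bijective g := by
          rw [Fintype.bijective_iff_injective_and_card]
          refine ⟨?_, rfl⟩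
          rintro ⟨a, b⟩ ⟨a', b'⟩ hab
          simp only [g, Prod.mk.injEq] at hab
          obtain ⟨k1, k2⟩ := hab
          have k3 : (a - a') * (h - h') = 0 := by linear_combination k1 - k2
          have k4 : a - a' = 0 := by
            rcases mul_eq_zero.1 k3 with k | k
            · exact k
            · exact absurd k hne
          have k5 : a = a' := sub_eq_zero.1 k4
          subst k5
          have k6 : b = b' := by linear_combination -k1
          rw [k6]
        have e4 : ∑ p : ZMod q × ZMod q, f (p.1 * h - p.2) * f (p.1 * h' - p.2) =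
            ∑ p : ZMod q × ZMod q, f p.1 * f p.2 :=
          hg.sum_comp (fun p => f p.1 * f p.2)
        rw [e4, Fintype.sum_prod_type]
        have e5 : ∑ a : ZMod q, ∑ b : ZMod q, f a * f b = (∑ a : ZMod q, f a) * ∑ b : ZMod q, f b := by
          rw [Finset.sum_mul_sum]
        rw [e5, hfsum, zero_mul]
    calc ∑ h ∈ H, ∑ h' ∈ H, ∑ p : ZMod q × ZMod q, f (p.1 * h - p.2) * f (p.1 * h' - p.2)
        ≤ ∑ h ∈ H, ∑ h' ∈ H, (if h = h' then (q : ℝ) * H.card else 0) :=
          Finset.sum_le_sum fun h hh => Finset.sum_le_sum fun h' hh' => e3 h hh h' hh'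
      _ = ∑ h ∈ H, (q : ℝ) * H.card := by
          refine Finset.sum_congr rfl fun h hh => ?_
          rw [Finset.sum_ite_eq, if_pos hh]
      _ = q * (H.card : ℝ) ^ 2 := by
          rw [Finset.sum_const, nsmul_eq_mul]; ring
  -- invariance
  have hne0 : ∀ s ∈ H, s ≠ 0 := by
    rintro s hs rfl
    rw [hmem, zero_pow hm.ne'] at hs
    exact zero_ne_one hs
  have hinvH : ∀ s ∈ H, s⁻¹ ∈ H := by
    intro s hs
    rw [hmem] at hs ⊢
    rw [inv_pow, hs, inv_one]
  have hinv : ∀ s ∈ H, ∀ t ∈ H, F (c * s) t = F c 1 := by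
    intro s hs t ht
    have hs0 := hne0 s hs
    have ht0 := hne0 t ht
    have e1 : ∀ h : ZMod q, f (c * s * h - t) = f (c * (s * h * t⁻¹) - 1) := by
      intro h
      have e2 : c * s * h - t = (c * (s * h * t⁻¹) - 1) * t := by
        field_simp
      rw [e2]
      simp only [f]
      simp only [hmul _ t ht]
    show ∑ h ∈ H, f (c * s * h - t) = ∑ h ∈ H, f (c * h - 1)
    rw [Finset.sum_congr rfl (fun h _ => e1 h)]
    refine Finset.sum_bij' (fun h _ => s * h * t⁻¹) (fun h _ => s⁻¹ * h * t) ?_ ?_ ?_ ?_ ?_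
    · intro h hh
      rw [hmul _ _ (hinvH t ht), mul_comm, hmul _ _ hs]
      exact hh
    · intro h hh
      rw [hmul _ _ ht, mul_comm, hmul _ _ (hinvH s hs)]
      exact hh
    · intro h _
      field_simp
    · intro h _
      field_simp
    · intro h _
      rfl
  have hlow : (H.card : ℝ) ^ 2 * F c 1 ^ 2 ≤ ∑ a : ZMod q, ∑ b : ZMod q, F a b ^ 2 := by
    calc (H.card : ℝ) ^ 2 * F c 1 ^ 2 = ∑ s ∈ H, ∑ t ∈ H, F (c * s) t ^ 2 := by
          rw [Finset.sum_congr rfl (fun s hs => Finset.sum_congr rfl (fun t ht => by rw [hinv s hs t ht]))]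
          simp only [Finset.sum_const, nsmul_eq_mul]
          ring
      _ ≤ ∑ s ∈ H, ∑ b : ZMod q, F (c * s) b ^ 2 :=
          Finset.sum_le_sum fun s _ => Finset.sum_le_univ_sum_of_nonneg (fun b => sq_nonneg _)
      _ = ∑ a ∈ H.image (fun s => c * s), ∑ b : ZMod q, F a b ^ 2 := by
          rw [Finset.sum_image]
          intro s _ s' _ hss
          exact mul_left_cancel₀ hc hss
      _ ≤ ∑ a : ZMod q, ∑ b : ZMod q, F a b ^ 2 :=
          Finset.sum_le_univ_sum_of_nonneg (fun a => Finset.sum_nonneg (fun b _ => sq_nonneg _))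
  have hF2 : F c 1 ^ 2 ≤ q := by
    have h2 := hlow.trans htot
    have hM2 : (0 : ℝ) < (H.card : ℝ) ^ 2 := by positivity
    nlinarith
  have hF : F c 1 ≤ Real.sqrt q := Real.le_sqrt_of_sq_le hF2
  have hFN : F c 1 = ((H.filter (fun h => c * h - 1 ∈ H)).card : ℝ) - (H.card : ℝ) ^ 2 / q := by
    show ∑ h ∈ H, f (c * h - 1) = _
    simp only [f]
    rw [Finset.sum_sub_distrib, Finset.sum_ite, Finset.sum_const, Finset.sum_const_zero,
      Finset.sum_const, nsmul_eq_mul, nsmul_eq_mul, mul_one, add_zero, hμ]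
    ring
  linarith

end Pool.Agent.Q249.CF
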