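import Pool.Agent.Q249.CN.Kill
import Pool.Agent.H435R3.HBK.Step
import Pool.Agent.Q249.CF.Sub

/-!
# Quadruples for which `2^x + 2^y + 2^z + 1` is divisible by a given prime

For every prime `q` for which the order `m` of `2` is positive at most
`n ^ ε (m^(2/3) + m^2 / q) (√n + n / m)` of the representations `n = x² + y² + z² + 4 w²` have a
value divisible by `q`.
-/

set_option autoImplicit false
open Finset

namespace Pool.Agent.Q249.CF

/-- the theorem of Heath-Brown and Konyagin for powers of two -/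
lemma val_card (q : ℕ) [Fact q.Prime] (hm : 0 < orderOf (2 : ZMod q))
    (h4 : orderOf (2 : ZMod q) ^ 4 < q ^ 3) (c : ZMod q) (hc : c ≠ 0) (V : Finset (ZMod q))
    (hV : ∀ v ∈ V, ∃ y z : ℕ, v = 2 ^ y ∧ (2 : ZMod q) ^ y + 2 ^ z = c) :
    V.card ^ 3 ≤ 308 * orderOf (2 : ZMod q) ^ 2 := by
  classical
  set m := orderOf (2 : ZMod q) with hmd
  have hone : ∀ y : ℕ, ((2 : ZMod q) ^ y) ^ m = 1 := by
    intro y
    rw [← pow_mul, mul_comm, pow_mul, hmd, pow_orderOf_eq_one, one_pow]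
  have h1 := Pool.Agent.H435R3.HBK.hbk (p := q) m hm h4 (1 / c ^ m) ((-1) ^ m / c ^ m)
    (div_ne_zero one_ne_zero (pow_ne_zero _ hc))
    (div_ne_zero (pow_ne_zero _ (neg_ne_zero.2 one_ne_zero)) (pow_ne_zero _ hc))
    (V.image (fun v => v / c)) (by
      intro u hu
      rw [mem_image] at hu
      obtain ⟨v, hv, rfl⟩ := hu
      obtain ⟨y, z, hy, hz⟩ := hV v hv
      refine ⟨?_, ?_⟩
      · rw [div_pow, hy, hone]
      · have e1 : v / c - 1 = (-1) * 2 ^ z / c := by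
          rw [eq_div_iff hc, sub_mul, div_mul_cancel₀ _ hc, hy, one_mul]
          linear_combination hz
        rw [e1, div_pow, mul_pow, hone, mul_one])
  rw [Finset.card_image_of_injective] at h1
  · exact h1
  · intro a b hab
    exact (div_left_inj' hc).1 hab

lemma val_card' (q : ℕ) [Fact q.Prime] (hm : 0 < orderOf (2 : ZMod q))
    (h4 : orderOf (2 : ZMod q) ^ 4 < q ^ 3) (c : ZMod q) (hc : c ≠ 0) (V : Finset (ZMod q))
    (hV : ∀ v ∈ V, ∃ y z : ℕ, v = 2 ^ y ∧ (2 : ZMod q) ^ y + 2 ^ z = c) :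
    (V.card : ℝ) ≤ 7 * (orderOf (2 : ZMod q) : ℝ) ^ (2 / 3 : ℝ) := by
  have h1 := val_card q hm h4 c hc V hV
  have h2 : (V.card : ℝ) ^ 3 ≤ 308 * (orderOf (2 : ZMod q) : ℝ) ^ 2 := by exact_mod_cast h1
  have h5 : (7 * (orderOf (2 : ZMod q) : ℝ) ^ (2 / 3 : ℝ)) ^ 3 = 343 * (orderOf (2 : ZMod q) : ℝ) ^ 2 := by
    rw [mul_pow, ← Real.rpow_natCast ((orderOf (2 : ZMod q) : ℝ) ^ (2 / 3 : ℝ)) 3,
      ← Real.rpow_mul (Nat.cast_nonneg _)]
    norm_num
  refine (pow_le_pow_iff_left₀ (Nat.cast_nonneg _) (by positivity) (by norm_num : (3 : ℕ) ≠ 0)).1 ?_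
  rw [h5]
  refine h2.trans ?_
  have : (0 : ℝ) ≤ (orderOf (2 : ZMod q) : ℝ) ^ 2 := by positivity
  linarith

/-- all primes -/
lemma val_all (q : ℕ) [Fact q.Prime] (hm : 0 < orderOf (2 : ZMod q)) (c : ZMod q) (hc : c ≠ 0)
    (V : Finset (ZMod q))
    (hV : ∀ v ∈ V, ∃ y z : ℕ, v = 2 ^ y ∧ (2 : ZMod q) ^ y + 2 ^ z = c) :
    (V.card : ℝ) ≤ 7 * (orderOf (2 : ZMod q) : ℝ) ^ (2 / 3 : ℝ) +
      (orderOf (2 : ZMod q) : ℝ) ^ 2 / q := by
  classical
  have hq0 : (0 : ℝ) < q := by exact_mod_cast (Fact.out : q.Prime).pos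
  have hnn : (0 : ℝ) ≤ (orderOf (2 : ZMod q) : ℝ) ^ 2 / q := by positivity
  by_cases h4 : orderOf (2 : ZMod q) ^ 4 < q ^ 3
  · have := val_card' q hm h4 c hc V hV
    linarith
  · rw [not_lt] at h4
    set m := orderOf (2 : ZMod q) with hmd
    have hone : ∀ y : ℕ, ((2 : ZMod q) ^ y) ^ m = 1 := by
      intro y
      rw [← pow_mul, mul_comm, pow_mul, hmd, pow_orderOf_eq_one, one_pow]
    have h2ne : (2 : ZMod q) ≠ 0 := by
      intro h
      have h1 := hone 1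
      rw [pow_one, h, zero_pow hm.ne'] at h1
      exact zero_ne_one h1
    set H : Finset (ZMod q) := univ.filter (fun u : ZMod q => u ^ m = 1) with hH
    have hmem : ∀ u : ZMod q, u ∈ H ↔ u ^ m = 1 := by
      intro u; rw [hH, mem_filter]; simp
    have hHm : H.card ≤ m := by
      have h2 : H ⊆ (Polynomial.nthRoots m (1 : ZMod q)).toFinset := by
        intro u hu
        rw [Multiset.mem_toFinset, Polynomial.mem_nthRoots hm]
        exact (hmem u).1 hu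
      exact (card_le_card h2).trans ((Multiset.toFinset_card_le _).trans (Polynomial.card_nthRoots m 1))
    have h1 := sub_bound q m hm c hc H hH
    have h2 : V.card ≤ (H.filter (fun h => c * h - 1 ∈ H)).card := by
      apply Finset.card_le_card_of_injOn (fun v => (c - v)⁻¹)
      · intro v hv
        obtain ⟨y, z, hy, hz⟩ := hV v hv
        have e1 : c - v = 2 ^ z := by rw [hy]; linear_combination -hz
        have hz0 : (2 : ZMod q) ^ z ≠ 0 := pow_ne_zero _ h2ne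
        rw [mem_coe, mem_filter, hmem, hmem]
        simp only [e1]
        refine ⟨by rw [inv_pow, hone, inv_one], ?_⟩
        have e2 : c * ((2 : ZMod q) ^ z)⁻¹ - 1 = 2 ^ y * ((2 : ZMod q) ^ z)⁻¹ := by
          field_simp
          linear_combination -hz
        rw [e2, mul_pow, inv_pow, hone, hone, inv_one, mul_one]
      · intro v _ v' _ h
        have h' : c - v = c - v' := inv_injective h
        linear_combination -h'
    have h3 : (V.card : ℝ) ≤ ((H.filter (fun h => c * h - 1 ∈ H)).card : ℝ) := by exact_mod_cast h2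
    have h5 : (H.card : ℝ) ^ 2 / q ≤ (m : ℝ) ^ 2 / q := by
      have : (H.card : ℝ) ≤ m := by exact_mod_cast hHm
      gcongr
    have hm0 : (0 : ℝ) ≤ m := Nat.cast_nonneg _
    have h6 : Real.sqrt q ≤ (m : ℝ) ^ (2 / 3 : ℝ) := by
      rw [Real.sqrt_le_left (by positivity)]
      refine (pow_le_pow_iff_left₀ hq0.le (by positivity) (by norm_num : (3 : ℕ) ≠ 0)).1 ?_
      have e1 : (((m : ℝ) ^ (2 / 3 : ℝ)) ^ 2) ^ 3 = (m : ℝ) ^ 4 := by
        rw [← pow_mul, ← Real.rpow_natCast ((m : ℝ) ^ (2 / 3 : ℝ)) (2 * 3), ← Real.rpow_mul hm0,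
          ← Real.rpow_natCast]
        norm_num
      rw [e1]
      exact_mod_cast h4
    have h7 : (0 : ℝ) ≤ (m : ℝ) ^ (2 / 3 : ℝ) := by positivity
    linarith

lemma pow_two_eq (q : ℕ) [Fact q.Prime] (hm : 0 < orderOf (2 : ZMod q)) (a b : ℕ)
    (h : (2 : ZMod q) ^ a = 2 ^ b) : a % orderOf (2 : ZMod q) = b % orderOf (2 : ZMod q) := by
  have hu : IsUnit (2 : ZMod q) := by
    rw [isUnit_iff_ne_zero]
    intro h
    rw [h, orderOf_zero] at hm
    exact lt_irrefl _ hm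
  obtain ⟨u, hu⟩ := hu
  rw [← hu] at h ⊢
  rw [← Units.val_pow_eq_pow_val, ← Units.val_pow_eq_pow_val, Units.val_inj, pow_eq_pow_iff_modEq] at h
  rw [orderOf_units]
  exact h

/-- pairs `(x, y)` for which some `z` exists -/
lemma pair_card (B q : ℕ) (hq : q.Prime) (hm : 0 < orderOf (2 : ZMod q)) (T : Finset (ℕ × ℕ))
    (hT : ∀ p ∈ T, p.1 ≤ B ∧ p.2 ≤ B ∧ ∃ z : ℕ, (2 : ZMod q) ^ p.1 + 2 ^ p.2 + 2 ^ z + 1 = 0) :
    (T.card : ℝ) ≤ (7 * (orderOf (2 : ZMod q) : ℝ) ^ (2 / 3 : ℝ) +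
      (orderOf (2 : ZMod q) : ℝ) ^ 2 / q + 1) *
      (((B / orderOf (2 : ZMod q) + 1 : ℕ) : ℝ) * ((B + 1 : ℕ) : ℝ)) := by
  classical
  have : Fact q.Prime := ⟨hq⟩
  set m := orderOf (2 : ZMod q) with hmd
  have hq0 : (0 : ℝ) < q := by exact_mod_cast hq.pos
  set X : ℝ := 7 * (m : ℝ) ^ (2 / 3 : ℝ) + (m : ℝ) ^ 2 / q with hX
  have hX0 : 0 ≤ X := by positivity
  set T1 := T.filter (fun p => (1 : ZMod q) + 2 ^ p.1 = 0) with hT1
  set T2 := T.filter (fun p => ¬ (1 : ZMod q) + 2 ^ p.1 = 0) with hT2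
  have hcard : T.card = T1.card + T2.card := by
    rw [hT1, hT2, Finset.card_filter_add_card_filter_not]
  have c1 : T1.card ≤ (B / m + 1) * (B + 1) := by
    have h1 : T1 ⊆ (T1.image Prod.fst) ×ˢ (range (B + 1)) := by
      intro p hp
      rw [mem_product, mem_image, mem_range]
      have := (hT p (mem_filter.1 hp).1).2.1
      exact ⟨⟨p, hp, rfl⟩, by omega⟩
    have h2 : (T1.image Prod.fst).card ≤ B / m + 1 := by
      apply Pool.Agent.Q249.CN.class_card B m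
      · intro b hb
        rw [mem_image] at hb
        obtain ⟨p, hp, rfl⟩ := hb
        exact (hT p (mem_filter.1 hp).1).1
      · intro b hb b' hb'
        rw [mem_image] at hb hb'
        obtain ⟨p, hp, rfl⟩ := hb
        obtain ⟨p', hp', rfl⟩ := hb'
        apply pow_two_eq q hm
        have e1 := (mem_filter.1 hp).2
        have e2 := (mem_filter.1 hp').2
        linear_combination e1 - e2
    calc T1.card ≤ ((T1.image Prod.fst) ×ˢ (range (B + 1))).card := Finset.card_le_card h1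
      _ = (T1.image Prod.fst).card * (B + 1) := by rw [Finset.card_product, Finset.card_range]
      _ ≤ _ := Nat.mul_le_mul_right _ h2
  have c2 : T2.card ≤ (⌊X⌋₊ * (B / m + 1)) * (T2.image Prod.fst).card := by
    apply Finset.card_le_mul_card_image
    intro a ha
    set F := T2.filter (fun p => p.1 = a) with hF
    set V := F.image (fun p => (2 : ZMod q) ^ p.2) with hV
    have h1 : F.card ≤ (V ×ˢ range (B / m + 1)).card := by
      apply Finset.card_le_card_of_injOn (fun p => ((2 : ZMod q) ^ p.2, p.2 / m))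
      · intro p hp
        rw [mem_coe] at hp ⊢
        rw [mem_product, mem_range]
        refine ⟨mem_image.2 ⟨p, hp, rfl⟩, ?_⟩
        have := (hT p (mem_filter.1 (mem_filter.1 hp).1).1).2.1
        exact Nat.lt_succ_of_le (Nat.div_le_div_right this)
      · intro p hp p' hp' h
        rw [mem_coe] at hp hp'
        simp only [Prod.mk.injEq] at h
        have h1 := pow_two_eq q hm _ _ h.1
        have e1 : p.2 = p'.2 := by
          rw [← Nat.div_add_mod p.2 m, ← Nat.div_add_mod p'.2 m, h.2, h1]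
        exact Prod.ext ((mem_filter.1 hp).2.trans (mem_filter.1 hp').2.symm) e1
    have h2 : V.card ≤ ⌊X⌋₊ := by
      apply Nat.le_floor
      rw [mem_image] at ha
      obtain ⟨p0, hp0, hp0a⟩ := ha
      have hne := (mem_filter.1 hp0).2
      rw [hp0a] at hne
      apply val_all q hm (-(1 + 2 ^ a)) (neg_ne_zero.2 hne) V
      intro v hv
      rw [hV, mem_image] at hv
      obtain ⟨p, hp, rfl⟩ := hv
      obtain ⟨z, hz⟩ := (hT p (mem_filter.1 (mem_filter.1 hp).1).1).2.2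
      rw [(mem_filter.1 hp).2] at hz
      exact ⟨p.2, z, rfl, by linear_combination hz⟩
    rw [Finset.card_product, Finset.card_range] at h1
    exact h1.trans (Nat.mul_le_mul_right _ h2)
  have c3 : (T2.image Prod.fst).card ≤ B + 1 := by
    have : (T2.image Prod.fst).card ≤ (range (B + 1)).card := by
      apply Finset.card_le_card
      intro a ha
      rw [mem_image] at ha
      obtain ⟨p, hp, rfl⟩ := ha
      rw [mem_range]
      have := (hT p (mem_filter.1 hp).1).1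
      omega
    simpa using this
  have c4 : T2.card ≤ (⌊X⌋₊ * (B / m + 1)) * (B + 1) :=
    c2.trans (Nat.mul_le_mul_left _ c3)
  have c5 : (T2.card : ℝ) ≤ (⌊X⌋₊ : ℝ) * ((B / m + 1 : ℕ) : ℝ) * ((B + 1 : ℕ) : ℝ) := by
    exact_mod_cast c4
  have c6 : (T1.card : ℝ) ≤ ((B / m + 1 : ℕ) : ℝ) * ((B + 1 : ℕ) : ℝ) := by exact_mod_cast c1
  have c7 : (⌊X⌋₊ : ℝ) ≤ X := Nat.floor_le hX0
  have c8 : (T.card : ℝ) = T1.card + T2.card := by exact_mod_cast hcard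
  rw [c8]
  have c9 : (⌊X⌋₊ : ℝ) * ((B / m + 1 : ℕ) : ℝ) * ((B + 1 : ℕ) : ℝ) ≤
      X * ((B / m + 1 : ℕ) : ℝ) * ((B + 1 : ℕ) : ℝ) := by gcongr
  calc (T1.card : ℝ) + T2.card ≤ ((B / m + 1 : ℕ) : ℝ) * ((B + 1 : ℕ) : ℝ) +
        X * ((B / m + 1 : ℕ) : ℝ) * ((B + 1 : ℕ) : ℝ) := by linarith
    _ = _ := by ring

/-- one fibre -/
lemma fib_card (n a b : ℕ) (D : ℝ) (hD : 1 ≤ D) (hdiv : ∀ M : ℕ, 1 ≤ M → M ≤ n → (M.divisors.card : ℝ) ≤ D)
    (T : Finset (ℕ × ℕ × ℕ × ℕ))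
    (hT : ∀ t ∈ T, n = t.1 ^ 2 + t.2.1 ^ 2 + t.2.2.1 ^ 2 + 4 * t.2.2.2 ^ 2 ∧ t.1 = a ∧ t.2.1 = b) :
    (T.card : ℝ) ≤ 8 * D ^ 2 := by
  classical
  by_cases hne : T.Nonempty
  · obtain ⟨t0, ht0⟩ := hne
    obtain ⟨g1, g2, g3⟩ := hT t0 ht0
    have hk : ∀ t ∈ T, ((t.2.2.1 : ℤ)) ^ 2 + (2 * (t.2.2.2 : ℤ)) ^ 2 = n - a ^ 2 - b ^ 2 := by
      intro t ht
      obtain ⟨h1, h2, h3⟩ := hT t ht
      rw [h1, ← h2, ← h3]
      push_cast
      ring
    obtain ⟨M, hM⟩ : ∃ M : ℕ, (M : ℤ) = n - a ^ 2 - b ^ 2 := by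
      refine ⟨(n - a ^ 2 - b ^ 2 : ℤ).toNat, ?_⟩
      rw [Int.toNat_of_nonneg]
      rw [← hk t0 ht0]
      positivity
    have hinj : ∀ t ∈ T, ∀ t' ∈ T, (t.2.2.1 : ℤ) = t'.2.2.1 → 2 * (t.2.2.2 : ℤ) = 2 * t'.2.2.2 → t = t' := by
      rintro ⟨x, y, z, w⟩ ht ⟨x', y', z', w'⟩ ht' e1 e2
      obtain ⟨_, h2, h3⟩ := hT _ ht
      obtain ⟨_, h2', h3'⟩ := hT _ ht'
      simp only at h2 h3 h2' h3' e1 e2
      simp only [Prod.mk.injEq]
      omega
    rcases Nat.eq_zero_or_pos M with h0 | h0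
    · have : T.card ≤ 1 := by
        rw [Finset.card_le_one]
        intro t ht t' ht'
        have k1 := hk t ht
        have k2 := hk t' ht'
        rw [← hM, h0] at k1 k2
        push_cast at k1 k2
        have z1 : ((t.2.2.1 : ℤ)) = 0 := by
          have := sq_nonneg ((t.2.2.1 : ℤ))
          have := sq_nonneg (2 * (t.2.2.2 : ℤ))
          exact pow_eq_zero_iff two_ne_zero |>.1 (by linarith)
        have z2 : (2 * (t.2.2.2 : ℤ)) = 0 := by
          have := sq_nonneg ((t.2.2.1 : ℤ))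
          have := sq_nonneg (2 * (t.2.2.2 : ℤ))
          exact pow_eq_zero_iff two_ne_zero |>.1 (by linarith)
        have z3 : ((t'.2.2.1 : ℤ)) = 0 := by
          have := sq_nonneg ((t'.2.2.1 : ℤ))
          have := sq_nonneg (2 * (t'.2.2.2 : ℤ))
          exact pow_eq_zero_iff two_ne_zero |>.1 (by linarith)
        have z4 : (2 * (t'.2.2.2 : ℤ)) = 0 := by
          have := sq_nonneg ((t'.2.2.1 : ℤ))
          have := sq_nonneg (2 * (t'.2.2.2 : ℤ))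
          exact pow_eq_zero_iff two_ne_zero |>.1 (by linarith)
        exact hinj t ht t' ht' (z1.trans z3.symm) (z2.trans z4.symm)
      have : (T.card : ℝ) ≤ 1 := by exact_mod_cast this
      nlinarith
    · have hc : T.card ≤ (Pool.Agent.W65.CS.R2 M).card := by
        apply Finset.card_le_card_of_injOn (fun t => ((t.2.2.1 : ℤ), 2 * (t.2.2.2 : ℤ)))
        · intro t ht
          rw [mem_coe, Pool.Agent.W65.CS.mem_R2, hM]
          exact hk t ht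
        · intro t ht t' ht' h
          simp only [Prod.mk.injEq] at h
          exact hinj t ht t' ht' h.1 h.2
      have hM2 : M ≤ n := by
        have : (M : ℤ) ≤ n := by
          rw [hM]
          have := sq_nonneg (a : ℤ)
          have := sq_nonneg (b : ℤ)
          linarith
        exact_mod_cast this
      have h1 := hc.trans (Pool.Agent.W65.CS.R2_card M h0)
      have h2 : (T.card : ℝ) ≤ 8 * (M.divisors.card : ℝ) ^ 2 := by exact_mod_cast h1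
      have h3 := hdiv M h0 hM2
      have h4 : (M.divisors.card : ℝ) ^ 2 ≤ D ^ 2 := by gcongr
      linarith
  · rw [not_nonempty_iff_eq_empty.1 hne]
    simp only [card_empty, Nat.cast_zero]
    positivity

lemma kill_nat (n q : ℕ) (hq : q.Prime) (hm : 0 < orderOf (2 : ZMod q)) (D : ℝ) (hD : 1 ≤ D)
    (hdiv : ∀ M : ℕ, 1 ≤ M → M ≤ n → (M.divisors.card : ℝ) ≤ D)
    (T : Finset (ℕ × ℕ × ℕ × ℕ))
    (hT : ∀ x y z w : ℕ, (x, y, z, w) ∈ T → n = x ^ 2 + y ^ 2 + z ^ 2 + 4 * w ^ 2 ∧ q ∣ 2 ^ x + 2 ^ y + 2 ^ z + 1) :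
    (T.card : ℝ) ≤ 8 * D ^ 2 * ((7 * (orderOf (2 : ZMod q) : ℝ) ^ (2 / 3 : ℝ) +
      (orderOf (2 : ZMod q) : ℝ) ^ 2 / q + 1) *
      (((Nat.sqrt n / orderOf (2 : ZMod q) + 1 : ℕ) : ℝ) * ((Nat.sqrt n + 1 : ℕ) : ℝ))) := by
  classical
  let f : ℕ × ℕ × ℕ × ℕ → ℕ × ℕ := fun t => (t.1, t.2.1)
  have h1 : T.card ≤ ⌊8 * D ^ 2⌋₊ * (T.image f).card := by
    apply Finset.card_le_mul_card_image
    intro p _
    apply Nat.le_floor
    apply fib_card n p.1 p.2 D hD hdiv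
    intro t ht
    rw [mem_filter] at ht
    refine ⟨(hT t.1 t.2.1 t.2.2.1 t.2.2.2 ht.1).1, ?_, ?_⟩
    · rw [← ht.2]
    · rw [← ht.2]
  have h2 := pair_card (Nat.sqrt n) q hq hm (T.image f) (by
    intro p hp
    rw [mem_image] at hp
    obtain ⟨t, ht, rfl⟩ := hp
    obtain ⟨g1, g2⟩ := hT t.1 t.2.1 t.2.2.1 t.2.2.2 ht
    refine ⟨?_, ?_, t.2.2.1, ?_⟩
    · show t.1 ≤ _
      rw [Nat.le_sqrt']
      omega
    · show t.2.1 ≤ _
      rw [Nat.le_sqrt']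
      omega
    · have e1 := (ZMod.natCast_eq_zero_iff _ _).2 g2
      push_cast at e1
      exact e1)
  calc (T.card : ℝ) ≤ ((⌊8 * D ^ 2⌋₊ * (T.image f).card : ℕ) : ℝ) := by exact_mod_cast h1
    _ = (⌊8 * D ^ 2⌋₊ : ℝ) * ((T.image f).card : ℝ) := by push_cast; ring
    _ ≤ (8 * D ^ 2) * _ := by
        apply mul_le_mul (Nat.floor_le (by positivity)) h2 (by positivity) (by positivity)

/-- the number of representations killed by one prime -/
theorem kill (ε : ℝ) (hε : 0 < ε) : ∃ C : ℝ, 0 < C ∧ ∀ n q : ℕ, 1 ≤ n → q.Prime →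
    0 < orderOf (2 : ZMod q) → ∀ T : Finset (ℕ × ℕ × ℕ × ℕ),
    (∀ x y z w : ℕ, (x, y, z, w) ∈ T → n = x ^ 2 + y ^ 2 + z ^ 2 + 4 * w ^ 2 ∧ q ∣ 2 ^ x + 2 ^ y + 2 ^ z + 1) →
    (T.card : ℝ) ≤ C * (n : ℝ) ^ ε * (((orderOf (2 : ZMod q) : ℝ) ^ (2 / 3 : ℝ) +
      (orderOf (2 : ZMod q) : ℝ) ^ 2 / q) * ((n : ℝ) ^ (1 / 2 : ℝ) + n / orderOf (2 : ZMod q))) := by
  obtain ⟨C, hC, hdiv⟩ := Pool.Agent.H510R2.divisor_bound (ε / 2) (by positivity)
  set C' : ℝ := max 1 C with hC'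
  have hC1 : 1 ≤ C' := le_max_left _ _
  refine ⟨8 * C' ^ 2 * 16, by positivity, ?_⟩
  intro n q hn hq hm T hT
  have hq0 : (0 : ℝ) < q := by exact_mod_cast hq.pos
  have hn1 : (1 : ℝ) ≤ n := by exact_mod_cast hn
  have hn0 : (0 : ℝ) < n := by linarith
  have hD1 : 1 ≤ C' * (n : ℝ) ^ (ε / 2) := by
    have := Real.one_le_rpow hn1 (by positivity : 0 ≤ ε / 2)
    nlinarith
  have hdiv' : ∀ M : ℕ, 1 ≤ M → M ≤ n → (M.divisors.card : ℝ) ≤ C' * (n : ℝ) ^ (ε / 2) := by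
    intro M hM hM2
    have hM2' : (M : ℝ) ≤ n := by exact_mod_cast hM2
    calc (M.divisors.card : ℝ) ≤ C * (M : ℝ) ^ (ε / 2) := hdiv M hM
      _ ≤ C * (n : ℝ) ^ (ε / 2) := by gcongr
      _ ≤ C' * (n : ℝ) ^ (ε / 2) := by
          gcongr
          exact le_max_right _ _
  have h1 := kill_nat n q hq hm _ hD1 hdiv' T hT
  set m := orderOf (2 : ZMod q) with hmdef
  have hm0 : (0 : ℝ) < m := by exact_mod_cast hm
  have hm1 : (1 : ℝ) ≤ m := by exact_mod_cast hm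
  have hs : ((Nat.sqrt n : ℕ) : ℝ) ≤ (n : ℝ) ^ (1 / 2 : ℝ) := by
    rw [← Real.sqrt_eq_rpow]
    exact Real.nat_sqrt_le_real_sqrt
  have hr1 : (1 : ℝ) ≤ (n : ℝ) ^ (1 / 2 : ℝ) := Real.one_le_rpow hn1 (by norm_num)
  have hrr : (n : ℝ) ^ (1 / 2 : ℝ) * (n : ℝ) ^ (1 / 2 : ℝ) = n := by
    rw [← Real.rpow_add hn0]; norm_num
  have hmm : (1 : ℝ) ≤ (m : ℝ) ^ (2 / 3 : ℝ) := Real.one_le_rpow hm1 (by norm_num)
  have hA : (((Nat.sqrt n / m + 1 : ℕ)) : ℝ) ≤ (n : ℝ) ^ (1 / 2 : ℝ) / m + 1 := by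
    push_cast
    have : ((Nat.sqrt n / m : ℕ) : ℝ) ≤ (Nat.sqrt n : ℝ) / m := Nat.cast_div_le
    have h3 : (Nat.sqrt n : ℝ) / m ≤ (n : ℝ) ^ (1 / 2 : ℝ) / m := by gcongr
    linarith
  have hB : ((Nat.sqrt n + 1 : ℕ) : ℝ) ≤ 2 * (n : ℝ) ^ (1 / 2 : ℝ) := by
    push_cast
    linarith
  have hAB : (((Nat.sqrt n / m + 1 : ℕ)) : ℝ) * ((Nat.sqrt n + 1 : ℕ) : ℝ) ≤
      2 * ((n : ℝ) ^ (1 / 2 : ℝ) + n / m) := by
    calc (((Nat.sqrt n / m + 1 : ℕ)) : ℝ) * ((Nat.sqrt n + 1 : ℕ) : ℝ)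
        ≤ ((n : ℝ) ^ (1 / 2 : ℝ) / m + 1) * (2 * (n : ℝ) ^ (1 / 2 : ℝ)) :=
          mul_le_mul hA hB (by positivity) (by positivity)
      _ = 2 * (((n : ℝ) ^ (1 / 2 : ℝ) * (n : ℝ) ^ (1 / 2 : ℝ)) / m) + 2 * (n : ℝ) ^ (1 / 2 : ℝ) := by
          field_simp
      _ = _ := by rw [hrr]; ring
  have hmq : (0 : ℝ) ≤ (m : ℝ) ^ 2 / q := by positivity
  have hE : (7 * (m : ℝ) ^ (2 / 3 : ℝ) + (m : ℝ) ^ 2 / q + 1) ≤ 8 * ((m : ℝ) ^ (2 / 3 : ℝ) + (m : ℝ) ^ 2 / q) := by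
    linarith
  have hpow : (C' * (n : ℝ) ^ (ε / 2)) ^ 2 = C' ^ 2 * (n : ℝ) ^ ε := by
    rw [mul_pow, ← Real.rpow_natCast, ← Real.rpow_natCast, ← Real.rpow_mul hn0.le]
    norm_num
  calc (T.card : ℝ) ≤ _ := h1
    _ ≤ 8 * (C' * (n : ℝ) ^ (ε / 2)) ^ 2 * ((8 * ((m : ℝ) ^ (2 / 3 : ℝ) + (m : ℝ) ^ 2 / q)) *
          (2 * ((n : ℝ) ^ (1 / 2 : ℝ) + n / m))) := by
        apply mul_le_mul_of_nonneg_left _ (by positivity)
        exact mul_le_mul hE hAB (by positivity) (by positivity)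
    _ = _ := by rw [hpow]; ring

end Pool.Agent.Q249.CF
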