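import Pool.Agent.Q249.CF.Kill
import Pool.Agent.TH696.FA.Final3

/-!
# Many primes at once do not divide all the values `2^x + 2^y + 2^z + 1`
-/

set_option autoImplicit false
open Finset

namespace Pool.Agent.Q249.CF

/-- the natural number `K` is tame for `n`: the starting result on small primes applies to the
primes for which the order of `2` divides `K` -/
def Tame (n K : ℕ) : Prop :=
  (3 ∣ n ∨ n % 32 = 13 ∨ ¬ 3 ∣ K) ∧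
    ∀ l : ℕ, l.Prime → 5 ≤ l → l ^ 2 ∣ K → ¬ (l : ℤ) ∣ (3 * n - 2) * (9 * n - 2)

lemma pow_dvd_lcm {l k a b : ℕ} (hl : l.Prime) (ha : a ≠ 0) (hb : b ≠ 0) (h : l ^ k ∣ Nat.lcm a b) :
    l ^ k ∣ a ∨ l ^ k ∣ b := by
  rw [hl.pow_dvd_iff_le_factorization (Nat.lcm_ne_zero ha hb), Nat.factorization_lcm ha hb] at h
  rw [hl.pow_dvd_iff_le_factorization ha, hl.pow_dvd_iff_le_factorization hb]
  rw [Finsupp.sup_apply] at h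
  exact le_sup_iff.1 h

lemma Tame.lcm {n a b : ℕ} (ha : a ≠ 0) (hb : b ≠ 0) (h1 : Tame n a) (h2 : Tame n b) :
    Tame n (Nat.lcm a b) := by
  refine ⟨?_, ?_⟩
  · rcases h1.1 with h | h | h
    · exact Or.inl h
    · exact Or.inr (Or.inl h)
    · rcases h2.1 with h' | h' | h'
      · exact Or.inl h'
      · exact Or.inr (Or.inl h')
      · refine Or.inr (Or.inr fun h3 => ?_)
        have h3' : 3 ^ 1 ∣ Nat.lcm a b := by simpa using h3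
        rcases pow_dvd_lcm Nat.prime_three ha hb h3' with h4 | h4
        · exact h (by simpa using h4)
        · exact h' (by simpa using h4)
  · intro l hl hl5 hd
    rcases pow_dvd_lcm hl ha hb hd with h4 | h4
    · exact h1.2 l hl hl5 h4
    · exact h2.2 l hl hl5 h4

/-- the starting results -/
lemma base_count (ε : ℝ) (hε : 0 < ε) : ∃ δ : ℝ, 0 < δ ∧ ∃ n0 : ℕ, ∀ (n K : ℕ), n0 ≤ n → Odd n →
    0 < K → (K : ℝ) ≤ (n : ℝ) ^ δ → Tame n K →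
    ∃ S : Finset (ℕ × ℕ × ℕ × ℕ), (n : ℝ) ^ (1 - ε) ≤ (S.card : ℝ) ∧
      ∀ x y z w : ℕ, (x, y, z, w) ∈ S → n = x ^ 2 + y ^ 2 + z ^ 2 + 4 * w ^ 2 ∧
        Nat.Coprime (2 ^ x + 2 ^ y + 2 ^ z + 1) (2 * (2 ^ K - 1)) := by
  obtain ⟨δ1, hδ1, n1, h1⟩ := Pool.Agent.TH696.FA.main_count2 ε hε
  obtain ⟨δ2, hδ2, n2, h2⟩ := Pool.Agent.TH696.FA.main_count3 ε hε
  refine ⟨min δ1 δ2, by positivity, n1 + n2, ?_⟩
  intro n K hn hno hK hKn hT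
  have hn' : 1 ≤ n := hno.pos
  have hn1 : (1 : ℝ) ≤ n := by exact_mod_cast hn'
  have hK1 := hKn.trans (Real.rpow_le_rpow_of_exponent_le hn1 (min_le_left δ1 δ2))
  have hK2 := hKn.trans (Real.rpow_le_rpow_of_exponent_le hn1 (min_le_right δ1 δ2))
  by_cases hres : 3 ∣ n ∨ n % 32 = 13
  · exact h1 n K (by omega) hno hres hK hK1 hT.2
  · have h3 : ¬ 3 ∣ K := by
      rcases hT.1 with h | h | h
      · exact absurd (Or.inl h) hres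
      · exact absurd (Or.inr h) hres
      · exact h
    obtain ⟨S, hS, hS'⟩ := h2 n K (by omega) hno h3 hK hK2 hT.2
    refine ⟨S, hS, ?_⟩
    intro x y z w ht
    obtain ⟨g1, g2⟩ := hS' x y z w ht
    exact ⟨g1, Nat.Coprime.coprime_dvd_right (Nat.mul_dvd_mul_right (by norm_num) _) g2⟩

/-- an odd prime has positive order -/
lemma order_pos {q : ℕ} (hq : q.Prime) (h2 : q ≠ 2) : 0 < orderOf (2 : ZMod q) := by
  have : Fact q.Prime := ⟨hq⟩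
  have h2ne : (2 : ZMod q) ≠ 0 := by
    intro h
    have h' : ((2 : ℕ) : ZMod q) = 0 := by exact_mod_cast h
    rw [ZMod.natCast_eq_zero_iff] at h'
    exact h2 ((Nat.prime_dvd_prime_iff_eq hq Nat.prime_two).1 h')
  obtain ⟨u, hu⟩ := isUnit_iff_ne_zero.2 h2ne
  rw [← hu, orderOf_units]
  exact orderOf_pos u

/-- the number of representations killed by a set of primes -/
lemma killQ (n : ℕ) (hn : 1 ≤ n) (C ε : ℝ)
    (hkill : ∀ q : ℕ, q.Prime → 0 < orderOf (2 : ZMod q) → ∀ T : Finset (ℕ × ℕ × ℕ × ℕ),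
    (∀ x y z w : ℕ, (x, y, z, w) ∈ T → n = x ^ 2 + y ^ 2 + z ^ 2 + 4 * w ^ 2 ∧ q ∣ 2 ^ x + 2 ^ y + 2 ^ z + 1) →
    (T.card : ℝ) ≤ C * (n : ℝ) ^ ε * (((orderOf (2 : ZMod q) : ℝ) ^ (2 / 3 : ℝ) +
      (orderOf (2 : ZMod q) : ℝ) ^ 2 / q) * ((n : ℝ) ^ (1 / 2 : ℝ) + n / orderOf (2 : ZMod q))))
    (Q : Finset ℕ) (hQ : ∀ q ∈ Q, q.Prime ∧ q ≠ 2)
    (S : Finset (ℕ × ℕ × ℕ × ℕ))
    (hS : ∀ x y z w : ℕ, (x, y, z, w) ∈ S → n = x ^ 2 + y ^ 2 + z ^ 2 + 4 * w ^ 2 ∧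
      ∃ q ∈ Q, q ∣ 2 ^ x + 2 ^ y + 2 ^ z + 1) :
    (S.card : ℝ) ≤ C * (n : ℝ) ^ ε * (n * ∑ q ∈ Q, (((orderOf (2 : ZMod q) : ℝ) ^ (2 / 3 : ℝ) +
      (orderOf (2 : ZMod q) : ℝ) ^ 2 / q) * (1 / (n : ℝ) ^ (1 / 2 : ℝ) + 1 / orderOf (2 : ZMod q)))) := by
  classical
  have hn1 : (1 : ℝ) ≤ n := by exact_mod_cast hn
  have hn0 : (0 : ℝ) < n := by linarith
  let F : ℕ → Finset (ℕ × ℕ × ℕ × ℕ) := fun q => S.filter (fun t => q ∣ 2 ^ t.1 + 2 ^ t.2.1 + 2 ^ t.2.2.1 + 1)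
  have h1 : S ⊆ Q.biUnion F := by
    rintro ⟨x, y, z, w⟩ ht
    obtain ⟨_, q, hq, hd⟩ := hS x y z w ht
    rw [mem_biUnion]
    exact ⟨q, hq, mem_filter.2 ⟨ht, hd⟩⟩
  have h2 : S.card ≤ ∑ q ∈ Q, (F q).card := (Finset.card_le_card h1).trans Finset.card_biUnion_le
  have hrr : (n : ℝ) / (n : ℝ) ^ (1 / 2 : ℝ) = (n : ℝ) ^ (1 / 2 : ℝ) := by
    rw [div_eq_iff (Real.rpow_pos_of_pos hn0 _).ne', ← Real.rpow_add hn0]
    norm_num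
  have h3 : ∀ q ∈ Q, ((F q).card : ℝ) ≤ C * (n : ℝ) ^ ε * (n * (((orderOf (2 : ZMod q) : ℝ) ^ (2 / 3 : ℝ) +
      (orderOf (2 : ZMod q) : ℝ) ^ 2 / q) * (1 / (n : ℝ) ^ (1 / 2 : ℝ) + 1 / orderOf (2 : ZMod q)))) := by
    intro q hq
    obtain ⟨hqp, hq2⟩ := hQ q hq
    have h4 := hkill q hqp (order_pos hqp hq2) (F q) (by
      intro x y z w ht
      rw [mem_filter] at ht
      exact ⟨(hS x y z w ht.1).1, ht.2⟩)
    refine h4.trans (le_of_eq ?_)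
    have e1 : (n : ℝ) ^ (1 / 2 : ℝ) + n / orderOf (2 : ZMod q) =
        n * (1 / (n : ℝ) ^ (1 / 2 : ℝ) + 1 / orderOf (2 : ZMod q)) := by
      rw [mul_add, mul_one_div, mul_one_div, hrr]
    rw [e1]
    ring
  calc (S.card : ℝ) ≤ ((∑ q ∈ Q, (F q).card : ℕ) : ℝ) := by exact_mod_cast h2
    _ = ∑ q ∈ Q, ((F q).card : ℝ) := by push_cast; rfl
    _ ≤ ∑ q ∈ Q, C * (n : ℝ) ^ ε * (n * (((orderOf (2 : ZMod q) : ℝ) ^ (2 / 3 : ℝ) +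
      (orderOf (2 : ZMod q) : ℝ) ^ 2 / q) * (1 / (n : ℝ) ^ (1 / 2 : ℝ) + 1 / orderOf (2 : ZMod q)))) :=
        Finset.sum_le_sum h3
    _ = _ := by rw [← Finset.mul_sum, ← Finset.mul_sum]

theorem many (ε : ℝ) (hε : 0 < ε) : ∃ δ : ℝ, 0 < δ ∧ ∃ n0 : ℕ, ∀ (n K : ℕ), n0 ≤ n → Odd n → 0 < K →
    (K : ℝ) ≤ (n : ℝ) ^ δ → Tame n K → ∀ Q : Finset ℕ,
    (∀ q ∈ Q, q.Prime ∧ q ≠ 2) →
    ∑ q ∈ Q, (((orderOf (2 : ZMod q) : ℝ) ^ (2 / 3 : ℝ) + (orderOf (2 : ZMod q) : ℝ) ^ 2 / q) *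
      (1 / (n : ℝ) ^ (1 / 2 : ℝ) + 1 / orderOf (2 : ZMod q))) ≤ (n : ℝ) ^ (-ε) →
    ∃ S : Finset (ℕ × ℕ × ℕ × ℕ), (n : ℝ) ^ (1 - ε) ≤ (S.card : ℝ) ∧
      ∀ x y z w : ℕ, (x, y, z, w) ∈ S → n = x ^ 2 + y ^ 2 + z ^ 2 + 4 * w ^ 2 ∧
        Nat.Coprime (2 ^ x + 2 ^ y + 2 ^ z + 1) (2 * (2 ^ K - 1)) ∧
        ∀ q ∈ Q, ¬ q ∣ 2 ^ x + 2 ^ y + 2 ^ z + 1 := by
  classical
  set η : ℝ := ε / 4 with hη
  have hη0 : 0 < η := by positivity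
  obtain ⟨C, hC, hkill⟩ := kill η hη0
  obtain ⟨δ, hδ, n1, h1⟩ := base_count η hη0
  obtain ⟨n2, hn2⟩ := Pool.Agent.TH696.FA.large_rp (C + 1) η hη0
  refine ⟨δ, hδ, n1 + n2, ?_⟩
  intro n K hn hno hK hKn hT Q hQ hsum
  have hn' : 1 ≤ n := hno.pos
  have hn1 : (1 : ℝ) ≤ n := by exact_mod_cast hn'
  have hn0 : (0 : ℝ) < n := by linarith
  obtain ⟨S0, hS0, hS0'⟩ := h1 n K (by omega) hno hK hKn hT
  set BQ := S0.filter (fun t => ∃ p ∈ Q, p ∣ 2 ^ t.1 + 2 ^ t.2.1 + 2 ^ t.2.2.1 + 1) with hBQ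
  have c2 := killQ n hn' C η (fun q => hkill n q hn') Q hQ BQ (by
    intro x y z w ht
    rw [hBQ, mem_filter] at ht
    exact ⟨(hS0' x y z w ht.1).1, ht.2⟩)
  refine ⟨S0 \ BQ, ?_, ?_⟩
  · have c4 : (BQ.card : ℝ) ≤ C * (n : ℝ) ^ (1 - 3 * η) := by
      calc (BQ.card : ℝ) ≤ _ := c2
        _ ≤ C * (n : ℝ) ^ η * (n * (n : ℝ) ^ (-ε)) := by gcongr
        _ = C * ((n : ℝ) ^ η * ((n : ℝ) ^ (1 : ℝ) * (n : ℝ) ^ (-ε))) := by rw [Real.rpow_one]; ring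
        _ = C * (n : ℝ) ^ (1 - 3 * η) := by
            rw [← Real.rpow_add hn0, ← Real.rpow_add hn0]
            congr 2
            rw [hη]; ring
    have c5 : (S0.card : ℝ) ≤ ((S0 \ BQ).card : ℝ) + BQ.card := by
      have g1 : S0 ⊆ (S0 \ BQ) ∪ BQ := by
        intro t ht
        by_cases h : t ∈ BQ
        · exact mem_union_right _ h
        · exact mem_union_left _ (mem_sdiff.2 ⟨ht, h⟩)
      have g2 := (Finset.card_le_card g1).trans (Finset.card_union_le _ _)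
      exact_mod_cast g2
    have e3 : (n : ℝ) ^ (1 - η) = (n : ℝ) ^ (2 * η) * (n : ℝ) ^ (1 - 3 * η) := by
      rw [← Real.rpow_add hn0]; congr 1; ring
    have e4 := hn2 n (by omega)
    have e5 : (n : ℝ) ^ η ≤ (n : ℝ) ^ (2 * η) := Real.rpow_le_rpow_of_exponent_le hn1 (by linarith)
    have hX : 0 < (n : ℝ) ^ (1 - 3 * η) := Real.rpow_pos_of_pos hn0 _
    have e6 : (n : ℝ) ^ (1 - ε) ≤ (n : ℝ) ^ (1 - 3 * η) := Real.rpow_le_rpow_of_exponent_le hn1 (by linarith)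
    have e7 : (C + 1) * (n : ℝ) ^ (1 - 3 * η) ≤ (n : ℝ) ^ (2 * η) * (n : ℝ) ^ (1 - 3 * η) := by
      have : C + 1 ≤ (n : ℝ) ^ (2 * η) := by linarith
      gcongr
    nlinarith [hS0]
  · intro x y z w ht
    rw [mem_sdiff] at ht
    obtain ⟨ht0, htQ⟩ := ht
    obtain ⟨g1, g2⟩ := hS0' x y z w ht0
    refine ⟨g1, g2, ?_⟩
    intro p hp hd
    exact htQ (mem_filter.2 ⟨ht0, p, hp, hd⟩)

end Pool.Agent.Q249.CF
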